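import Mathlib

/-!
# Ranges of additive maps and the compression lemma (modules T1, T2 of MP_141f81, section 9)
-/

set_option autoImplicit false

namespace Pool.Agent.helper3.MF9

open Filter

universe u

/-- the size of the range of an additive map -/
noncomputable def rg {U : Type*} [AddCommGroup U] (f : AddMonoid.End U) : ℕ :=
  Nat.card (AddMonoidHom.range (f : U →+ U))

section rg

variable {U : Type*} [AddCommGroup U] [Finite U]

theorem rg_pos (f : AddMonoid.End U) : 0 < rg f := Nat.card_pos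

theorem rg_zero : rg (0 : AddMonoid.End U) ≤ 1 := by
  unfold rg
  have : (AddMonoidHom.range ((0 : AddMonoid.End U) : U →+ U)) = ⊥ := by
    rw [eq_bot_iff]
    rintro x ⟨y, rfl⟩
    exact rfl
  rw [this]
  simp

theorem rg_add (f g : AddMonoid.End U) : rg (f + g) ≤ rg f * rg g := by
  unfold rg
  rw [← Nat.card_prod]
  have key : ∀ x : (AddMonoidHom.range ((f + g : AddMonoid.End U) : U →+ U)),
      ∃ p : (AddMonoidHom.range (f : U →+ U)) × (AddMonoidHom.range (g : U →+ U)), (p.1 : U) + p.2 = x := by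
    rintro ⟨x, y, rfl⟩
    exact ⟨⟨⟨f y, y, rfl⟩, ⟨g y, y, rfl⟩⟩, rfl⟩
  choose F hF using key
  apply Nat.card_le_card_of_injective F
  intro a b hab
  apply Subtype.ext
  rw [← hF a, ← hF b, hab]

theorem rg_mul_right (f g : AddMonoid.End U) : rg (f * g) ≤ rg g := by
  unfold rg
  have key : ∀ x : (AddMonoidHom.range ((f * g : AddMonoid.End U) : U →+ U)),
      ∃ p : (AddMonoidHom.range (g : U →+ U)), f (p : U) = x := by
    rintro ⟨x, y, rfl⟩
    exact ⟨⟨g y, y, rfl⟩, rfl⟩
  choose F hF using key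
  apply Nat.card_le_card_of_injective F
  intro a b hab
  apply Subtype.ext
  rw [← hF a, ← hF b, hab]

theorem rg_mul_left (f g : AddMonoid.End U) : rg (f * g) ≤ rg f := by
  unfold rg
  have key : ∀ x : (AddMonoidHom.range ((f * g : AddMonoid.End U) : U →+ U)),
      ∃ p : (AddMonoidHom.range (f : U →+ U)), (p : U) = x := by
    rintro ⟨x, y, rfl⟩
    exact ⟨⟨f (g y), g y, rfl⟩, rfl⟩
  choose F hF using key
  apply Nat.card_le_card_of_injective F
  intro a b hab
  apply Subtype.ext
  rw [← hF a, ← hF b, hab]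

theorem rg_neg (f : AddMonoid.End U) : rg (-f) ≤ rg f := by
  unfold rg
  have key : ∀ x : (AddMonoidHom.range ((-f : AddMonoid.End U) : U →+ U)),
      ∃ p : (AddMonoidHom.range (f : U →+ U)), -(p : U) = x := by
    rintro ⟨x, y, rfl⟩
    exact ⟨⟨f y, y, rfl⟩, rfl⟩
  choose F hF using key
  apply Nat.card_le_card_of_injective F
  intro a b hab
  apply Subtype.ext
  rw [← hF a, ← hF b, hab]

end rg

theorem end_add_self {U : Type*} [AddCommGroup U] (h2 : ∀ x : U, x + x = 0) (f : AddMonoid.End U) :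
    f + f = 0 := by
  ext x
  exact h2 (f x)

/-- finite pigeonhole for ultrafilters -/
theorem uf_pigeon {ι α : Type*} (V : Ultrafilter ι) [Finite α] (p : α → ι → Prop)
    (h : ∀ᶠ i in (V : Filter ι), ∃ a, p a i) : ∃ a, ∀ᶠ i in (V : Filter ι), p a i := by
  by_contra hc
  have h1 : ∀ a, ∀ᶠ i in (V : Filter ι), ¬ p a i := fun a => by
    rcases V.em (p a) with h | h
    · exact absurd ⟨a, h⟩ hc
    · exact h
  have h2 : ∀ᶠ i in (V : Filter ι), ∀ a, ¬ p a i := eventually_all.2 h1
  obtain ⟨i, ⟨a, ha⟩, hi⟩ := (h.and h2).exists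
  exact hi a ha

/-- the compression lemma -/
theorem T1 {A M : Type*} [AddCommGroup A] [AddCommGroup M] (β : A →+ A →+ M) (C : ℕ)
    (hrow : ∀ y, ∀ t : Finset M, (t : Set M) ⊆ Set.range (β y) → t.card ≤ C)
    (hsymm : ∀ y v, β y v = β v y) : ∃ Φ : Set M, Φ.Finite ∧ ∀ y v, β y v ∈ Φ := by
  classical
  have hfin : ∀ y, (Set.range (β y)).Finite := by
    intro y
    by_contra hc
    obtain ⟨t, ht, hcard⟩ := (Set.Infinite.exists_subset_card_eq hc (C + 1))
    have := hrow y t ht
    omega
  have hnc : ∀ y, (Set.range (β y)).ncard ≤ C := by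
    intro y
    rw [Set.ncard_eq_toFinset_card _ (hfin y)]
    apply hrow y
    intro x hx
    simpa using hx
  -- the maximal row
  obtain ⟨y1, hy1⟩ : ∃ y1, ∀ y, (Set.range (β y)).ncard ≤ (Set.range (β y1)).ncard := by
    refine ⟨Function.argmin (fun y => C - (Set.range (β y)).ncard), fun y => ?_⟩
    have h1 := Function.argmin_le (fun y => C - (Set.range (β y)).ncard) y
    have h2 := hnc y
    have h3 := hnc (Function.argmin (fun y => C - (Set.range (β y)).ncard))
    omega
  set I1 : Set M := Set.range (β y1) with hI1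
  haveI : Finite I1 := (hfin y1).to_subtype
  have hpre : ∀ w : I1, ∃ v, β y1 v = w := fun w => w.2
  choose v hv using hpre
  -- finitely many classes of rows
  let g : A → (I1 → M) := fun y w => β y (v w)
  have hgfin : (Set.range g).Finite := by
    apply Set.Finite.subset (Set.Finite.pi (fun w : I1 => hfin (v w)))
    rintro _ ⟨y, rfl⟩ w _
    exact ⟨y, (hsymm (v w) y)⟩
  have hT : ∃ T : Set A, T.Finite ∧ ∀ y, ∃ t ∈ T, g t = g y := by
    haveI : Finite (Set.range g) := hgfin.to_subtype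
    refine ⟨Set.range (fun s : Set.range g => Classical.choose s.2), Set.finite_range _, fun y => ?_⟩
    exact ⟨_, ⟨⟨g y, y, rfl⟩, rfl⟩, Classical.choose_spec (⟨y, rfl⟩ : ∃ z, g z = g y)⟩
  obtain ⟨T, hTf, hT⟩ := hT
  have hker : ∀ y, (∀ w, β y (v w) = 0) → ∀ x, β y x ∈ (β y1).range := by
    intro y hy x
    have hsub : Set.range (β y1) ⊆ Set.range (β (y1 + y)) := by
      rintro _ ⟨z, rfl⟩
      have h := hv ⟨β y1 z, z, rfl⟩
      refine ⟨v ⟨β y1 z, z, rfl⟩, ?_⟩
      rw [map_add, AddMonoidHom.add_apply, hy, add_zero, h]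
    have heq := Set.eq_of_subset_of_ncard_le hsub (hy1 _) (hfin _)
    have hx : β (y1 + y) x ∈ (β y1).range := by
      have : β (y1 + y) x ∈ Set.range (β y1) := by rw [heq]; exact ⟨x, rfl⟩
      exact this
    have h3 : β y x = β (y1 + y) x - β y1 x := by
      rw [map_add, AddMonoidHom.add_apply]; abel
    rw [h3]
    exact AddSubgroup.sub_mem _ hx ⟨x, rfl⟩
  refine ⟨⋃ t ∈ T, (fun p : M × M => p.1 + p.2) '' ((Set.range (β t)) ×ˢ I1), ?_, ?_⟩
  · apply Set.Finite.biUnion hTf
    intro t _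
    exact ((hfin t).prod (hfin y1)).image _
  · intro y x
    obtain ⟨t, ht, hg⟩ := hT y
    rw [Set.mem_iUnion₂]
    refine ⟨t, ht, (β t x, β (y - t) x), ⟨⟨x, rfl⟩, ?_⟩, ?_⟩
    · apply hker
      intro w
      have : g t w = g y w := by rw [hg]
      rw [map_sub, AddMonoidHom.sub_apply]
      simp only [g] at this
      rw [this, sub_self]
    · simp only
      rw [map_sub, AddMonoidHom.sub_apply]
      abel

end Pool.Agent.helper3.MF9
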