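import Mathlib
import Pool.Agent.helper3.MF.TotA

/-!
# The domains of the products (module T2 of MP_141f81, section 9), limit form
-/

set_option autoImplicit false

namespace Pool.Agent.helper3.MF9

open Filter

universe u

section general

theorem card_le_of_index {U : ℕ → Type u} [∀ j, AddCommGroup (U j)] [∀ j, Finite (U j)]
    (V : Ultrafilter ℕ) (W : ∀ j, AddSubgroup (U j)) (K : ℕ) (hW : ∀ j, (W j).index ≤ K)
    {M : Type*} [AddCommGroup M] (F : (∀ j, U j) →+ M)
    (hF : ∀ x : ∀ j, U j, (∀ᶠ j in (V : Filter ℕ), x j ∈ W j) → F x = 0) :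
    ∀ t : Finset M, (t : Set M) ⊆ Set.range F → t.card ≤ K := by
  classical
  intro t ht
  by_contra hc
  push Not at hc
  have hpre : ∀ a : t, ∃ x, F x = a := fun a => ht a.2
  choose v hv using hpre
  have hj : ∀ j, ∃ p : t × t, p.1 ≠ p.2 ∧ v p.1 j - v p.2 j ∈ W j := by
    intro j
    have h1 : ¬ Function.Injective (fun a : t => (QuotientAddGroup.mk (v a j) : U j ⧸ W j)) := by
      intro hinj
      have h2 := Nat.card_le_card_of_injective _ hinj
      have h3 : Nat.card (U j ⧸ W j) = (W j).index := rfl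
      rw [h3] at h2
      have h4 : Nat.card t = t.card := by simp
      have := hW j
      omega
    unfold Function.Injective at h1
    push Not at h1
    obtain ⟨a, b, hab, hne⟩ := h1
    refine ⟨(b, a), fun h => hne h.symm, ?_⟩
    rw [QuotientAddGroup.eq] at hab
    have h5 : v b j - v a j = -v a j + v b j := by abel
    simp only
    rw [h5]
    exact hab
  obtain ⟨p, hp⟩ := uf_pigeon V (fun (p : t × t) j => p.1 ≠ p.2 ∧ v p.1 j - v p.2 j ∈ W j)
    (Eventually.of_forall hj)
  obtain ⟨j, hj1, -⟩ := hp.exists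
  have h6 : F (v p.1 - v p.2) = 0 := hF _ (hp.mono fun j h => h.2)
  rw [map_sub, hv, hv, sub_eq_zero] at h6
  exact hj1 (Subtype.ext h6)

theorem closure_finite {M : Type*} [AddCommGroup M] (h2 : ∀ x : M, x + x = 0) (S : Set M) (hS : S.Finite) :
    ((AddSubgroup.closure S : AddSubgroup M) : Set M).Finite := by
  classical
  apply Set.Finite.subset (Set.Finite.image (fun T : Finset M => ∑ s ∈ T, s)
    (hS.toFinset.powerset : Finset (Finset M)).finite_toSet)
  intro x hx
  have : ∃ T ⊆ hS.toFinset, x = ∑ s ∈ T, s := by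
    induction hx using AddSubgroup.closure_induction with
    | mem x hx =>
      exact ⟨{x}, by simpa using hx, by simp⟩
    | zero => exact ⟨∅, by simp, by simp⟩
    | add x y _ _ hx hy =>
      obtain ⟨T, hT, rfl⟩ := hx
      obtain ⟨T', hT', rfl⟩ := hy
      refine ⟨(T \ T') ∪ (T' \ T), ?_, ?_⟩
      · intro a ha
        simp only [Finset.mem_union, Finset.mem_sdiff] at ha
        rcases ha with ha | ha
        · exact hT ha.1
        · exact hT' ha.1
      · rw [Finset.sum_union (by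
          rw [Finset.disjoint_left]
          intro a ha hb
          simp only [Finset.mem_sdiff] at ha hb
          exact ha.2 hb.1)]
        have e1 : ∑ s ∈ T, s = ∑ s ∈ T \ T', s + ∑ s ∈ T ∩ T', s := by
          rw [← Finset.sum_union (by
            rw [Finset.disjoint_left]
            intro a ha hb
            simp only [Finset.mem_sdiff, Finset.mem_inter] at ha hb
            exact ha.2 hb.2)]
          congr 1
          ext a
          simp only [Finset.mem_union, Finset.mem_sdiff, Finset.mem_inter]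
          tauto
        have e2 : ∑ s ∈ T', s = ∑ s ∈ T' \ T, s + ∑ s ∈ T ∩ T', s := by
          rw [← Finset.sum_union (by
            rw [Finset.disjoint_left]
            intro a ha hb
            simp only [Finset.mem_sdiff, Finset.mem_inter] at ha hb
            exact ha.2 hb.1)]
          congr 1
          ext a
          simp only [Finset.mem_union, Finset.mem_sdiff, Finset.mem_inter]
          tauto
        rw [e1, e2]
        have h3 := h2 (∑ s ∈ T ∩ T', s)
        calc _ = ∑ s ∈ T \ T', s + ∑ s ∈ T' \ T, s + (∑ s ∈ T ∩ T', s + ∑ s ∈ T ∩ T', s) := by abel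
          _ = _ := by rw [h3, add_zero]
    | neg x _ hx =>
      have : -x = x := neg_eq_of_add_eq_zero_left (h2 x)
      rw [this]
      exact hx
  obtain ⟨T, hT, rfl⟩ := this
  exact ⟨T, by simpa using hT, rfl⟩

theorem finite_reps {E : Type*} [AddCommGroup E] (S L1 : AddSubgroup E) (h : L1.relIndex S ≠ 0) :
    ∃ k : ℕ, ∃ m : Fin k → E, (∀ i, m i ∈ S) ∧ ∀ a ∈ S, ∃ i, a - m i ∈ L1 := by
  classical
  have hf : Finite (S ⧸ L1.addSubgroupOf S) := AddSubgroup.index_ne_zero_iff_finite.1 h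
  obtain ⟨k, ⟨e⟩⟩ := Finite.exists_equiv_fin (S ⧸ L1.addSubgroupOf S)
  refine ⟨k, fun i => ((e.symm i).out : S), fun i => ((e.symm i).out : S).2, fun a ha => ?_⟩
  refine ⟨e (QuotientAddGroup.mk ⟨a, ha⟩), ?_⟩
  beta_reduce
  rw [e.symm_apply_apply]
  have h1 : (QuotientAddGroup.mk ((QuotientAddGroup.mk (⟨a, ha⟩ : S) : S ⧸ L1.addSubgroupOf S).out) :
      S ⧸ L1.addSubgroupOf S) = QuotientAddGroup.mk ⟨a, ha⟩ := Quotient.out_eq _
  rw [QuotientAddGroup.eq] at h1
  have h2 := AddSubgroup.mem_addSubgroupOf.1 h1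
  have h3 : a - ((QuotientAddGroup.mk (⟨a, ha⟩ : S) : S ⧸ L1.addSubgroupOf S).out : S) =
      ((-(QuotientAddGroup.mk (⟨a, ha⟩ : S) : S ⧸ L1.addSubgroupOf S).out + ⟨a, ha⟩ : S) : E) := by
    push_cast
    abel
  rw [h3]
  exact h2

end general

section limit

variable {U : ℕ → Type u} [∀ j, AddCommGroup (U j)] [∀ j, Finite (U j)]
variable {D : ℕ → Type u} [∀ j, AddCommGroup (D j)] [∀ j, Finite (D j)]

/-- sequences of maps with bounded range -/
def Small (U : ℕ → Type u) [∀ j, AddCommGroup (U j)] [∀ j, Finite (U j)] (V : Ultrafilter ℕ) :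
    AddSubgroup (∀ j, AddMonoid.End (U j)) where
  carrier := {f | ∃ B, ∀ᶠ j in (V : Filter ℕ), rg (f j) ≤ B}
  zero_mem' := ⟨1, Eventually.of_forall fun j => rg_zero⟩
  add_mem' := by
    rintro f g ⟨B, hB⟩ ⟨B', hB'⟩
    exact ⟨B * B', (hB.and hB').mono fun j h => (rg_add _ _).trans (Nat.mul_le_mul h.1 h.2)⟩
  neg_mem' := by
    rintro f ⟨B, hB⟩
    exact ⟨B, hB.mono fun j h => (rg_neg _).trans h⟩

theorem small_mul_left {V : Ultrafilter ℕ} (f g : ∀ j, AddMonoid.End (U j)) (hg : g ∈ Small U V) :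
    f * g ∈ Small U V := by
  obtain ⟨B, hB⟩ := hg
  exact ⟨B, hB.mono fun j h => (rg_mul_right _ _).trans h⟩

theorem small_mul_right {V : Ultrafilter ℕ} (f g : ∀ j, AddMonoid.End (U j)) (hf : f ∈ Small U V) :
    f * g ∈ Small U V := by
  obtain ⟨B, hB⟩ := hf
  exact ⟨B, hB.mono fun j h => (rg_mul_left _ _).trans h⟩

/-- the operators of a sequence -/
def LL (L : ∀ j, D j → AddMonoid.End (U j)) (x : ∀ j, D j) : ∀ j, AddMonoid.End (U j) :=
  fun j => L j (x j)

/-- The hypotheses on one structure. -/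
structure Hyp {D U : Type*} [AddCommGroup D] [AddCommGroup U] (L : D → AddMonoid.End U) (C : ℕ) : Prop where
  two : ∀ x : U, x + x = 0
  add : ∀ u u', rg (L (u + u') + L u + L u') ≤ C
  dom : ∀ y, ∃ W : AddSubgroup D, W.index ≤ C ∧ ∀ v ∈ W, ∃ x, rg (L y * L v + L x) ≤ C
  comm : ∀ y v, rg (L y * L v + L v * L y) ≤ C

variable {L : ∀ j, D j → AddMonoid.End (U j)} {C : ℕ} {V : Ultrafilter ℕ}

theorem E_two (h : ∀ j, Hyp (L j) C) (a : ∀ j, AddMonoid.End (U j)) : a + a = 0 := by
  funext j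
  exact end_add_self (h j).two (a j)

theorem E_neg (h : ∀ j, Hyp (L j) C) (a : ∀ j, AddMonoid.End (U j)) : -a = a :=
  neg_eq_of_add_eq_zero_left (E_two h a)

theorem E_sub (h : ∀ j, Hyp (L j) C) (a b : ∀ j, AddMonoid.End (U j)) : a - b = a + b := by
  rw [sub_eq_add_neg, E_neg h]

theorem LL_add (h : ∀ j, Hyp (L j) C) (x y : ∀ j, D j) :
    LL L (x + y) + LL L x + LL L y ∈ Small U V :=
  ⟨C, Eventually.of_forall fun j => (h j).add (x j) (y j)⟩

theorem LL_comm (h : ∀ j, Hyp (L j) C) (x y : ∀ j, D j) :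
    LL L x * LL L y + LL L y * LL L x ∈ Small U V :=
  ⟨C, Eventually.of_forall fun j => (h j).comm (x j) (y j)⟩

theorem LL_zero (h : ∀ j, Hyp (L j) C) : LL L 0 ∈ Small U V := by
  have h1 := LL_add (V := V) h 0 0
  rw [add_zero, E_two h, zero_add] at h1
  exact h1

/-- the operators `L x` with `x` in a family of subgroups, up to small ones -/
def LG (h : ∀ j, Hyp (L j) C) (V : Ultrafilter ℕ) (A : ∀ j, AddSubgroup (D j)) :
    AddSubgroup (∀ j, AddMonoid.End (U j)) where
  carrier := {a | ∃ x : ∀ j, D j, (∀ j, x j ∈ A j) ∧ a + LL L x ∈ Small U V}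
  zero_mem' := ⟨0, fun j => (A j).zero_mem, by rw [zero_add]; exact LL_zero h⟩
  add_mem' := by
    rintro a b ⟨x, hx, hax⟩ ⟨y, hy, hby⟩
    refine ⟨x + y, fun j => (A j).add_mem (hx j) (hy j), ?_⟩
    have e : a + b + LL L (x + y) = (a + LL L x) + (b + LL L y) +
        (LL L (x + y) + LL L x + LL L y) - (LL L x + LL L x) - (LL L y + LL L y) := by abel
    rw [e, E_two h, E_two h, sub_zero, sub_zero]
    exact add_mem (add_mem hax hby) (LL_add h x y)
  neg_mem' := by
    rintro a ⟨x, hx, hax⟩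
    rw [E_neg h]
    exact ⟨x, hx, hax⟩

theorem small_le_LG (h : ∀ j, Hyp (L j) C) (A : ∀ j, AddSubgroup (D j)) :
    Small U V ≤ LG h V A := by
  intro a ha
  exact ⟨0, fun j => (A j).zero_mem, add_mem ha (LL_zero h)⟩

theorem LL_mem_LG (h : ∀ j, Hyp (L j) C) (A : ∀ j, AddSubgroup (D j)) (x : ∀ j, D j)
    (hx : ∀ j, x j ∈ A j) : LL L x ∈ LG h V A := by
  refine ⟨x, hx, ?_⟩
  rw [E_two h]
  exact zero_mem _

/-- eventually in the subgroup is enough -/
theorem LL_mem_LG' (h : ∀ j, Hyp (L j) C) (A : ∀ j, AddSubgroup (D j)) (x : ∀ j, D j)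
    (hx : ∀ᶠ j in (V : Filter ℕ), x j ∈ A j) : LL L x ∈ LG h V A := by
  classical
  refine ⟨fun j => if x j ∈ A j then x j else 0, fun j => ?_, ?_⟩
  · by_cases hj : x j ∈ A j
    · simp [hj]
    · simp [hj]
  · refine ⟨1, hx.mono fun j hj => ?_⟩
    have : (LL L x + LL L (fun j => if x j ∈ A j then x j else 0)) j = 0 := by
      simp only [Pi.add_apply, LL, hj, if_true]
      exact end_add_self (h j).two _
    rw [this]
    exact rg_zero

/-- the operator map to the quotient -/
noncomputable def qL (h : ∀ j, Hyp (L j) C) (V : Ultrafilter ℕ) (A : ∀ j, AddSubgroup (D j)) :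
    (∀ j, D j) →+ ((∀ j, AddMonoid.End (U j)) ⧸ LG h V A) :=
  AddMonoidHom.mk' (fun x => QuotientAddGroup.mk (LL L x)) (by
    intro x y
    rw [← QuotientAddGroup.mk_add, QuotientAddGroup.eq]
    rw [E_neg h]
    have h1 := LL_add (V := V) h x y
    rw [← add_assoc]
    exact small_le_LG h A h1)

/-- the product map to the quotient -/
noncomputable def qB (h : ∀ j, Hyp (L j) C) (V : Ultrafilter ℕ) :
    (∀ j, D j) →+ (∀ j, D j) →+ ((∀ j, AddMonoid.End (U j)) ⧸ LG h V (fun j => ⊤)) :=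
  AddMonoidHom.mk' (fun y => AddMonoidHom.mk' (fun v => QuotientAddGroup.mk (LL L y * LL L v)) (by
    intro v v'
    rw [← QuotientAddGroup.mk_add, QuotientAddGroup.eq, E_neg h]
    apply small_le_LG h
    have h1 := small_mul_left (LL L y) _ (LL_add (V := V) h v v')
    have e : LL L y * LL L (v + v') + (LL L y * LL L v + LL L y * LL L v') =
        LL L y * (LL L (v + v') + LL L v + LL L v') := by
      rw [mul_add, mul_add, add_assoc]
    rw [e]
    exact h1)) (by
    intro y y'
    ext v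
    simp only [AddMonoidHom.mk'_apply, AddMonoidHom.add_apply]
    rw [← QuotientAddGroup.mk_add, QuotientAddGroup.eq, E_neg h]
    apply small_le_LG h
    have h1 := small_mul_right _ (LL L v) (LL_add (V := V) h y y')
    have e : LL L (y + y') * LL L v + (LL L y * LL L v + LL L y' * LL L v) =
        (LL L (y + y') + LL L y + LL L y') * LL L v := by
      rw [add_mul, add_mul, add_assoc]
    rw [e]
    exact h1)

theorem qB_apply (h : ∀ j, Hyp (L j) C) (y v : ∀ j, D j) :
    qB h V y v = QuotientAddGroup.mk (LL L y * LL L v) := rfl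

theorem qB_zero (h : ∀ j, Hyp (L j) C) (y v : ∀ j, D j)
    (hv : ∀ᶠ j in (V : Filter ℕ), ∃ x, rg (L j (y j) * L j (v j) + L j x) ≤ C) : qB h V y v = 0 := by
  classical
  rw [qB_apply, QuotientAddGroup.eq_zero_iff]
  have : ∃ x : ∀ j, D j, ∀ j, (∃ x, rg (L j (y j) * L j (v j) + L j x) ≤ C) →
      rg (L j (y j) * L j (v j) + L j (x j)) ≤ C := by
    have : ∀ j, ∃ x', (∃ x, rg (L j (y j) * L j (v j) + L j x) ≤ C) →
      rg (L j (y j) * L j (v j) + L j x') ≤ C := by
      intro j
      by_cases hj : ∃ x, rg (L j (y j) * L j (v j) + L j x) ≤ C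
      · obtain ⟨x, hx⟩ := hj
        exact ⟨x, fun _ => hx⟩
      · exact ⟨0, fun h' => absurd h' hj⟩
    choose x hx using this
    exact ⟨x, hx⟩
  obtain ⟨x, hx⟩ := this
  exact ⟨x, fun j => AddSubgroup.mem_top _, ⟨C, hv.mono fun j hj => hx j hj⟩⟩

end limit

end Pool.Agent.helper3.MF9
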