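import Mathlib
import Pool.Agent.helper3.MF.TotB

/-!
# The domains of the products (module T2 of MP_141f81, section 9), limit form, main lemma
-/

set_option autoImplicit false

namespace Pool.Agent.helper3.MF9

open Filter

universe u

variable {U : ℕ → Type u} [∀ j, AddCommGroup (U j)] [∀ j, Finite (U j)]
variable {D : ℕ → Type u} [∀ j, AddCommGroup (D j)] [∀ j, Finite (D j)]
variable {L : ∀ j, D j → AddMonoid.End (U j)} {C : ℕ} {V : Ultrafilter ℕ}

theorem Q_two (h : ∀ j, Hyp (L j) C) (A : ∀ j, AddSubgroup (D j))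
    (x : (∀ j, AddMonoid.End (U j)) ⧸ LG h V A) : x + x = 0 := by
  induction x using QuotientAddGroup.induction_on with
  | H a =>
    rw [← QuotientAddGroup.mk_add, E_two h]
    rfl

theorem limit_form (h : ∀ j, Hyp (L j) C) :
    ∃ (K : ℕ) (A : ∀ j, AddSubgroup (D j)) (k : ℕ) (m : Fin k → ∀ j, AddMonoid.End (U j))
      (S : AddSubgroup (∀ j, AddMonoid.End (U j))),
      (∀ j, (A j).index ≤ K) ∧ (∀ i, m i ∈ S) ∧ (Small U V ≤ S) ∧
      (∀ w : ∀ j, D j, (∀ j, w j ∈ A j) → LL L w ∈ S) ∧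
      (∀ a ∈ S, ∀ b ∈ S, a * b ∈ S) ∧
      (∀ a ∈ S, ∀ b ∈ S, a * b + b * a ∈ Small U V) ∧
      (∀ a ∈ S, ∃ w : ∀ j, D j, (∀ j, w j ∈ A j) ∧ ∃ i, a + m i + LL L w ∈ Small U V) := by
  classical
  -- T1
  have hdom : ∀ j y, ∃ W : AddSubgroup (D j), W.index ≤ C ∧ ∀ v ∈ W, ∃ x, rg (L j y * L j v + L j x) ≤ C :=
    fun j => (h j).dom
  choose W hWi hW using hdom
  have hsymm : ∀ y v, qB h V y v = qB h V v y := by
    intro y v
    rw [qB_apply, qB_apply, QuotientAddGroup.eq, E_neg h]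
    exact small_le_LG h _ (LL_comm h y v)
  have hrow : ∀ y, ∀ t : Finset ((∀ j, AddMonoid.End (U j)) ⧸ LG h V (fun j => ⊤)),
      (t : Set ((∀ j, AddMonoid.End (U j)) ⧸ LG h V (fun j => ⊤))) ⊆ Set.range (qB h V y) → t.card ≤ C := by
    intro y
    apply card_le_of_index V (fun j => W j (y j)) C (fun j => hWi j (y j))
    intro x hx
    apply qB_zero
    exact hx.mono fun j hj => hW j (y j) (x j) hj
  obtain ⟨Φ, hΦ, hΦ2⟩ := T1 (qB h V) C hrow hsymm
  -- finitely many pairs
  have hrange : (Set.range (fun p : (∀ j, D j) × (∀ j, D j) => qB h V p.1 p.2)).Finite := by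
    apply hΦ.subset
    rintro _ ⟨p, rfl⟩
    exact hΦ2 _ _
  have hG : ∃ G : Finset ((∀ j, D j) × (∀ j, D j)), ∀ y v, ∃ p ∈ G, qB h V p.1 p.2 = qB h V y v := by
    haveI : Finite (Set.range (fun p : (∀ j, D j) × (∀ j, D j) => qB h V p.1 p.2)) := hrange.to_subtype
    haveI := Fintype.ofFinite (Set.range (fun p : (∀ j, D j) × (∀ j, D j) => qB h V p.1 p.2))
    refine ⟨Finset.univ.image
      (fun s : Set.range (fun p : (∀ j, D j) × (∀ j, D j) => qB h V p.1 p.2) => Classical.choose s.2),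
      fun y v => ?_⟩
    refine ⟨_, Finset.mem_image.2 ⟨⟨qB h V y v, (y, v), rfl⟩, Finset.mem_univ _, rfl⟩, ?_⟩
    exact Classical.choose_spec (⟨(y, v), rfl⟩ : ∃ z : (∀ j, D j) × (∀ j, D j),
      (fun p : (∀ j, D j) × (∀ j, D j) => qB h V p.1 p.2) z = qB h V y v)
  obtain ⟨G, hG⟩ := hG
  -- the subgroups
  let T : ∀ j, AddSubgroup (D j) := fun j => ⊤
  let A : ∀ j, AddSubgroup (D j) := fun j => ⨅ p : G, W j ((p : (∀ j, D j) × (∀ j, D j)).2 j)
  have hA : ∀ j, (A j).index ≤ C ^ G.card := by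
    intro j
    refine (AddSubgroup.index_iInf_le _).trans ?_
    calc ∏ p : G, (W j ((p : (∀ j, D j) × (∀ j, D j)).2 j)).index ≤ ∏ p : G, C :=
          Finset.prod_le_prod' fun p _ => hWi j _
      _ = C ^ G.card := by simp
  have hA0 : ∀ p ∈ G, ∀ w : ∀ j, D j, (∀ j, w j ∈ A j) → qB h V p.2 w = 0 := by
    intro p hp w hw
    apply qB_zero
    refine Eventually.of_forall fun j => hW j _ _ ?_
    have h1 := hw j
    rw [AddSubgroup.mem_iInf] at h1
    exact h1 ⟨p, hp⟩
  -- L'
  let gens : Set (∀ j, AddMonoid.End (U j)) :=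
    ((Small U V : AddSubgroup _) : Set _) ∪ Set.range (LL L) ∪
      ((fun p : (∀ j, D j) × (∀ j, D j) => LL L p.1 * LL L p.2) '' (G : Set _))
  let L' : AddSubgroup (∀ j, AddMonoid.End (U j)) := AddSubgroup.closure gens
  have hL'small : Small U V ≤ L' := fun a ha => AddSubgroup.subset_closure (Or.inl (Or.inl ha))
  have hL'LL : ∀ x, LL L x ∈ L' := fun x => AddSubgroup.subset_closure (Or.inl (Or.inr ⟨x, rfl⟩))
  have hL'LG : ∀ B : ∀ j, AddSubgroup (D j), LG h V B ≤ L' := by
    rintro B a ⟨x, -, hx⟩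
    have e : a = (a + LL L x) + LL L x - (LL L x + LL L x) := by abel
    have e2 : a = (a + LL L x) + LL L x := by rw [add_assoc, E_two h, add_zero]
    rw [e2]
    exact add_mem (hL'small hx) (hL'LL x)
  have hL'prod : ∀ y v, LL L y * LL L v ∈ L' := by
    intro y v
    obtain ⟨p, hp, he⟩ := hG y v
    rw [qB_apply, qB_apply, QuotientAddGroup.eq, E_neg h] at he
    have h1 : LL L p.1 * LL L p.2 ∈ L' := AddSubgroup.subset_closure (Or.inr ⟨p, hp, rfl⟩)
    have h2 := hL'LG _ he
    have e2 : LL L y * LL L v = (LL L p.1 * LL L p.2 + LL L y * LL L v) + LL L p.1 * LL L p.2 := by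
      rw [add_comm (LL L p.1 * LL L p.2) (LL L y * LL L v), add_assoc, E_two h, add_zero]
    rw [e2]
    exact add_mem h2 h1
  have hmulw : ∀ w : ∀ j, D j, (∀ j, w j ∈ A j) → ∀ c ∈ L', c * LL L w ∈ L' := by
    intro w hw c hc
    induction hc using AddSubgroup.closure_induction with
    | mem c hc =>
      rcases hc with (hc | ⟨x, rfl⟩) | ⟨p, hp, rfl⟩
      · exact hL'small (small_mul_right _ _ hc)
      · exact hL'prod _ _
      · have h1 := hA0 p hp w hw
        rw [qB_apply, QuotientAddGroup.eq_zero_iff] at h1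
        obtain ⟨x, -, hx⟩ := h1
        have e : LL L p.1 * LL L p.2 * LL L w =
            LL L p.1 * (LL L p.2 * LL L w + LL L x) + LL L p.1 * LL L x := by
          rw [mul_add, mul_assoc, add_assoc, E_two h, add_zero]
        simp only
        rw [e]
        exact add_mem (hL'small (small_mul_left _ _ hx)) (hL'prod _ _)
    | zero => rw [zero_mul]; exact zero_mem _
    | add a b _ _ ha hb => rw [add_mul]; exact add_mem ha hb
    | neg a _ ha => rw [E_neg h]; exact ha
  -- S
  let S : AddSubgroup (∀ j, AddMonoid.End (U j)) :=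
    { carrier := {a | a ∈ L' ∧ ∀ c ∈ L', c * a ∈ L'}
      zero_mem' := ⟨zero_mem _, fun c _ => by rw [mul_zero]; exact zero_mem _⟩
      add_mem' := by
        rintro a b ⟨ha, ha'⟩ ⟨hb, hb'⟩
        exact ⟨add_mem ha hb, fun c hc => by rw [mul_add]; exact add_mem (ha' c hc) (hb' c hc)⟩
      neg_mem' := by
        rintro a ha
        rw [E_neg h]
        exact ha }
  have hSL : S ≤ L' := fun a ha => ha.1
  have hSsmall : Small U V ≤ S := fun a ha => ⟨hL'small ha, fun c _ => hL'small (small_mul_left _ _ ha)⟩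
  have hSw : ∀ w : ∀ j, D j, (∀ j, w j ∈ A j) → LL L w ∈ S := fun w hw => ⟨hL'LL w, hmulw w hw⟩
  have hSmul : ∀ a ∈ S, ∀ b ∈ S, a * b ∈ S := by
    rintro a ⟨ha, ha'⟩ b ⟨hb, hb'⟩
    exact ⟨hb' a ha, fun c hc => by rw [← mul_assoc]; exact hb' _ (ha' c hc)⟩
  -- commutativity
  have comm_ind : ∀ X : Set (∀ j, AddMonoid.End (U j)), (∀ b ∈ X, ∀ x, LL L x * b + b * LL L x ∈ Small U V) →
      ∀ a ∈ L', ∀ b ∈ X, a * b + b * a ∈ Small U V := by
    intro X hX a ha b hb
    induction ha using AddSubgroup.closure_induction with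
    | mem c hc =>
      rcases hc with (hc | ⟨x, rfl⟩) | ⟨p, hp, rfl⟩
      · exact add_mem (small_mul_right _ _ hc) (small_mul_left _ _ hc)
      · exact hX b hb x
      · have h1 := hX b hb p.1
        have h2 := hX b hb p.2
        have e : LL L p.1 * LL L p.2 * b + b * (LL L p.1 * LL L p.2) =
            LL L p.1 * (LL L p.2 * b + b * LL L p.2) + (LL L p.1 * b + b * LL L p.1) * LL L p.2 := by
          have h3 := E_two h (LL L p.1 * b * LL L p.2)
          calc _ = LL L p.1 * LL L p.2 * b + b * (LL L p.1 * LL L p.2) +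
                (LL L p.1 * b * LL L p.2 + LL L p.1 * b * LL L p.2) := by rw [h3, add_zero]
            _ = _ := by noncomm_ring
        simp only
        rw [e]
        exact add_mem (small_mul_left _ _ h2) (small_mul_right _ _ h1)
    | zero => rw [zero_mul, mul_zero, add_zero]; exact zero_mem _
    | add a a' _ _ ha ha' =>
      have e : (a + a') * b + b * (a + a') = (a * b + b * a) + (a' * b + b * a') := by noncomm_ring
      rw [e]
      exact add_mem ha ha'
    | neg a _ ha => rw [E_neg h]; exact ha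
  have hcomm1 : ∀ a ∈ L', ∀ x, a * LL L x + LL L x * a ∈ Small U V := by
    intro a ha x
    exact comm_ind (Set.range (LL L)) (by rintro _ ⟨y, rfl⟩ x; exact LL_comm h x y) a ha _ ⟨x, rfl⟩
  have hcomm : ∀ a ∈ L', ∀ b ∈ L', a * b + b * a ∈ Small U V := by
    intro a ha b hb
    refine comm_ind (L' : Set _) (fun c hc x => ?_) a ha b hb
    rw [add_comm]
    exact hcomm1 c hc x
  -- finite index
  have hi1 : (LG h V A).relIndex (LG h V T) ≠ 0 := by
    have hk : (QuotientAddGroup.mk' (LG h V A)).ker = LG h V A := QuotientAddGroup.ker_mk' _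
    rw [← hk, AddSubgroup.relIndex_ker]
    have hsub : (((LG h V T).map (QuotientAddGroup.mk' (LG h V A)) :
        AddSubgroup ((∀ j, AddMonoid.End (U j)) ⧸ LG h V A)) : Set _) ⊆ Set.range (qL h V A) := by
      rintro _ ⟨a, ⟨x, -, hx⟩, rfl⟩
      refine ⟨x, ?_⟩
      change (QuotientAddGroup.mk (LL L x) : (∀ j, AddMonoid.End (U j)) ⧸ LG h V A) = QuotientAddGroup.mk a
      rw [QuotientAddGroup.eq, E_neg h, add_comm]
      exact small_le_LG h _ hx
    have hc := card_le_of_index V A (C ^ G.card) hA (qL h V A) (by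
      intro x hx
      change (QuotientAddGroup.mk (LL L x) : (∀ j, AddMonoid.End (U j)) ⧸ LG h V A) = 0
      rw [QuotientAddGroup.eq_zero_iff]
      exact LL_mem_LG' h A x hx)
    have hfin : (Set.range (qL h V A)).Finite := by
      by_contra hcon
      obtain ⟨t, ht, hcard⟩ := (Set.Infinite.exists_subset_card_eq hcon (C ^ G.card + 1))
      have := hc t ht
      omega
    have := (hfin.subset hsub).to_subtype
    exact Nat.card_ne_zero.2 ⟨⟨0⟩, this⟩
  have hi2 : (LG h V T).relIndex L' ≠ 0 := by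
    have hk : (QuotientAddGroup.mk' (LG h V T)).ker = LG h V T := QuotientAddGroup.ker_mk' _
    rw [← hk, AddSubgroup.relIndex_ker]
    have hcl := closure_finite (Q_two h T) (Set.range (fun p : G => (QuotientAddGroup.mk
        (LL L (p : (∀ j, D j) × (∀ j, D j)).1 * LL L (p : (∀ j, D j) × (∀ j, D j)).2) :
        (∀ j, AddMonoid.End (U j)) ⧸ LG h V T))) (Set.finite_range _)
    have hsub : L'.map (QuotientAddGroup.mk' (LG h V T)) ≤ AddSubgroup.closure (Set.range (fun p : G =>
        (QuotientAddGroup.mk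
        (LL L (p : (∀ j, D j) × (∀ j, D j)).1 * LL L (p : (∀ j, D j) × (∀ j, D j)).2) :
        (∀ j, AddMonoid.End (U j)) ⧸ LG h V T))) := by
      rw [AddSubgroup.map_le_iff_le_comap, AddSubgroup.closure_le]
      rintro a ((ha | ⟨x, rfl⟩) | ⟨p, hp, rfl⟩)
      · rw [AddSubgroup.coe_comap, Set.mem_preimage]
        have : (QuotientAddGroup.mk' (LG h V T)) a = 0 := by
          rw [QuotientAddGroup.mk'_apply, QuotientAddGroup.eq_zero_iff]
          exact small_le_LG h _ ha
        rw [this]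
        exact zero_mem _
      · rw [AddSubgroup.coe_comap, Set.mem_preimage]
        have : (QuotientAddGroup.mk' (LG h V T)) (LL L x) = 0 := by
          rw [QuotientAddGroup.mk'_apply, QuotientAddGroup.eq_zero_iff]
          exact LL_mem_LG h _ x (fun j => AddSubgroup.mem_top _)
        rw [this]
        exact zero_mem _
      · rw [AddSubgroup.coe_comap, Set.mem_preimage]
        exact AddSubgroup.subset_closure ⟨⟨p, hp⟩, rfl⟩
    have := (hcl.subset hsub).to_subtype
    exact Nat.card_ne_zero.2 ⟨⟨0⟩, this⟩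
  have hi3 : (LG h V A).relIndex S ≠ 0 := by
    have h1 := AddSubgroup.relIndex_ne_zero_trans hi1 hi2
    exact mt (AddSubgroup.relIndex_eq_zero_of_le_right hSL) h1
  obtain ⟨k, m, hm, hm2⟩ := finite_reps S (LG h V A) hi3
  refine ⟨C ^ G.card, A, k, m, S, hA, hm, hSsmall, hSw, hSmul,
    fun a ha b hb => hcomm a ha.1 b hb.1, fun a ha => ?_⟩
  obtain ⟨i, hi⟩ := hm2 a ha
  obtain ⟨w, hw, hw2⟩ := hi
  rw [E_sub h] at hw2
  exact ⟨w, hw, i, hw2⟩

end Pool.Agent.helper3.MF9
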