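import Mathlib
import Pool.Agent.helper3.MF.TotC

/-!
# The domains of the products (module T2 of MP_141f81, section 9), finite form
-/

set_option autoImplicit false

namespace Pool.Agent.helper3.MF9

open Filter

universe u

/-- the operators of the extended structure -/
noncomputable def Lh {D U : Type*} [AddCommGroup D] [AddCommGroup U] (L : D → AddMonoid.End U)
    (A : AddSubgroup D) {k : ℕ}
    (m : Fin k → AddMonoid.End U) (p : A × (Fin k → ZMod 2)) : AddMonoid.End U :=
  L p.1 + ∑ i, (p.2 i).val • m i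

theorem tot_ext (C : ℕ) : ∃ N : ℕ, ∀ (D U : Type u) [AddCommGroup D] [Finite D] [AddCommGroup U] [Finite U]
    (L : D → AddMonoid.End U), Hyp L C → ∃ (A : AddSubgroup D) (k : ℕ) (m : Fin k → AddMonoid.End U), A.index ≤ N ∧ k ≤ N ∧
      (∀ a b : A × (Fin k → ZMod 2), ∃ c, rg (Lh L A m a * Lh L A m b + Lh L A m c) ≤ N) ∧
      (∀ a b : A × (Fin k → ZMod 2), rg (Lh L A m a * Lh L A m b + Lh L A m b * Lh L A m a) ≤ N) := by
  classical
  by_contra hcon
  simp only [not_exists, not_forall] at hcon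
  choose D U i1 i2 i3 i4 L hL hneg using hcon
  let V : Ultrafilter ℕ := hyperfilter ℕ
  obtain ⟨K, A, k, m, S, hA, hm, hSs, hSw, hmul, hcomm, hrep⟩ := limit_form (V := V) hL
  -- sequences of the extended structure
  have hseq : ∀ p : ∀ j, A j × (Fin k → ZMod 2),
      (fun j => Lh (L j) (A j) (fun i => m i j) (p j)) ∈ S := by
    intro p
    obtain ⟨ε, hε⟩ := uf_pigeon V (fun (ε : Fin k → ZMod 2) j => (p j).2 = ε)
      (Eventually.of_forall fun j => ⟨(p j).2, rfl⟩)
    have h1 : LL L (fun j => ((p j).1 : D j)) + ∑ i, (ε i).val • m i ∈ S :=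
      add_mem (hSw _ (fun j => (p j).1.2)) (AddSubgroup.sum_mem _ fun i _ => AddSubgroup.nsmul_mem _ (hm i) _)
    have h2 : (fun j => Lh (L j) (A j) (fun i => m i j) (p j)) -
        (LL L (fun j => ((p j).1 : D j)) + ∑ i, (ε i).val • m i) ∈ Small U V := by
      refine ⟨1, hε.mono fun j hj => ?_⟩
      have : ((fun j => Lh (L j) (A j) (fun i => m i j) (p j)) -
        (LL L (fun j => ((p j).1 : D j)) + ∑ i, (ε i).val • m i)) j = 0 := by
        simp only [Pi.sub_apply, Pi.add_apply, LL, Finset.sum_apply, Pi.smul_apply, Lh]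
        rw [hj, sub_self]
      rw [this]
      exact rg_zero
    have h3 := add_mem (hSs h2) h1
    rwa [sub_add_cancel] at h3
  -- totality
  have htot : ∃ B, ∀ᶠ j in (V : Filter ℕ), ∀ a b : A j × (Fin k → ZMod 2), ∃ c,
      rg (Lh (L j) (A j) (fun i => m i j) a * Lh (L j) (A j) (fun i => m i j) b +
        Lh (L j) (A j) (fun i => m i j) c) ≤ B := by
    let f : ∀ j, (A j × (Fin k → ZMod 2)) × (A j × (Fin k → ZMod 2)) → ℕ := fun j q =>
      sInf (Set.range fun c => rg (Lh (L j) (A j) (fun i => m i j) q.1 *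
        Lh (L j) (A j) (fun i => m i j) q.2 + Lh (L j) (A j) (fun i => m i j) c))
    have hmax : ∀ j, ∃ q, ∀ q', f j q' ≤ f j q := fun j => by
      haveI : Finite (A j × (Fin k → ZMod 2)) := inferInstance
      haveI : Nonempty ((A j × (Fin k → ZMod 2)) × (A j × (Fin k → ZMod 2))) := ⟨(0, 0)⟩
      exact Finite.exists_max (f j)
    choose q hq using hmax
    have h1 := hmul _ (hseq fun j => (q j).1) _ (hseq fun j => (q j).2)
    obtain ⟨w, hw, i, B, hB⟩ := hrep _ h1
    refine ⟨B, hB.mono fun j hj a b => ?_⟩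
    have h2 : f j (q j) ≤ B := by
      let c0 : A j × (Fin k → ZMod 2) := (⟨w j, hw j⟩, Pi.single i 1)
      refine (Nat.sInf_le (Set.mem_range_self c0)).trans ?_
      have h3 : Lh (L j) (A j) (fun i => m i j) (⟨w j, hw j⟩, Pi.single i 1) = m i j + L j (w j) := by
        unfold Lh
        simp only
        rw [Finset.sum_eq_single i]
        · rw [Pi.single_eq_same, add_comm]
          congr 1
          have : (1 : ZMod 2).val = 1 := rfl
          rw [this, one_smul]
        · intro i' _ hi'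
          rw [Pi.single_eq_of_ne hi']
          have : (0 : ZMod 2).val = 0 := rfl
          rw [this, zero_smul]
        · intro hi
          exact absurd (Finset.mem_univ i) hi
      simp only [c0]
      rw [h3, ← add_assoc]
      exact hj
    have h4 : f j (a, b) ≤ B := (hq j (a, b)).trans h2
    have h5 : f j (a, b) ∈ (Set.range fun c => rg (Lh (L j) (A j) (fun i => m i j) a *
        Lh (L j) (A j) (fun i => m i j) b + Lh (L j) (A j) (fun i => m i j) c)) :=
      Nat.sInf_mem ⟨_, ⟨0, rfl⟩⟩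
    obtain ⟨c, hc⟩ := h5
    exact ⟨c, by simp only at hc; rw [hc]; exact h4⟩
  have hcm : ∃ B, ∀ᶠ j in (V : Filter ℕ), ∀ a b : A j × (Fin k → ZMod 2),
      rg (Lh (L j) (A j) (fun i => m i j) a * Lh (L j) (A j) (fun i => m i j) b +
        Lh (L j) (A j) (fun i => m i j) b * Lh (L j) (A j) (fun i => m i j) a) ≤ B := by
    let f : ∀ j, (A j × (Fin k → ZMod 2)) × (A j × (Fin k → ZMod 2)) → ℕ := fun j q =>
      rg (Lh (L j) (A j) (fun i => m i j) q.1 *
        Lh (L j) (A j) (fun i => m i j) q.2 + Lh (L j) (A j) (fun i => m i j) q.2 *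
        Lh (L j) (A j) (fun i => m i j) q.1)
    have hmax : ∀ j, ∃ q, ∀ q', f j q' ≤ f j q := fun j => by
      haveI : Finite (A j × (Fin k → ZMod 2)) := inferInstance
      haveI : Nonempty ((A j × (Fin k → ZMod 2)) × (A j × (Fin k → ZMod 2))) := ⟨(0, 0)⟩
      exact Finite.exists_max (f j)
    choose q hq using hmax
    obtain ⟨B, hB⟩ := hcomm _ (hseq fun j => (q j).1) _ (hseq fun j => (q j).2)
    exact ⟨B, hB.mono fun j hj a b => (hq j (a, b)).trans hj⟩
  obtain ⟨B1, hB1⟩ := htot
  obtain ⟨B2, hB2⟩ := hcm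
  have hge : ∀ᶠ j in (V : Filter ℕ), max (max K k) (max B1 B2) ≤ j := by
    have h1 : (V : Filter ℕ) ≤ atTop := Nat.hyperfilter_le_atTop
    exact h1 (eventually_ge_atTop _)
  obtain ⟨j, hj1, hj2, hj3⟩ := (hge.and (hB1.and hB2)).exists
  have e1 : K ≤ j := (le_max_left _ _).trans ((le_max_left _ _).trans hj1)
  have e2 : k ≤ j := (le_max_right _ _).trans ((le_max_left _ _).trans hj1)
  have e3 : B1 ≤ j := (le_max_left _ _).trans ((le_max_right _ _).trans hj1)
  have e4 : B2 ≤ j := (le_max_right _ _).trans ((le_max_right _ _).trans hj1)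
  refine hneg j (A j) k (fun i => m i j) ⟨(hA j).trans e1, e2, fun a b => ?_, fun a b => ?_⟩
  · obtain ⟨c, hc⟩ := hj2 a b
    exact ⟨c, hc.trans e3⟩
  · exact (hj3 a b).trans e4

end Pool.Agent.helper3.MF9
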