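import Mathlib
import Pool.Agent.helper3.MF.TotD

/-!
# Products with values in a subgroup of bounded index (MP_141f81, section 9)
-/

set_option autoImplicit false

namespace Pool.Agent.helper3.MF9

/-- `k`-fold sums of elements of `T` -/
def sums {G : Type*} [AddCommGroup G] (T : Set G) : ℕ → Set G
  | 0 => {0}
  | (k + 1) => {x | ∃ y ∈ sums T k, ∃ t ∈ T, x = y + t}

theorem sums_add {G : Type*} [AddCommGroup G] (T : Set G) (k l : ℕ) (x y : G)
    (hx : x ∈ sums T k) (hy : y ∈ sums T l) : x + y ∈ sums T (k + l) := by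
  induction l generalizing y with
  | zero =>
    have : y = 0 := hy
    rw [this, add_zero, add_zero]
    exact hx
  | succ l ih =>
    obtain ⟨z, hz, t, ht, rfl⟩ := hy
    refine ⟨x + z, ih z hz, t, ht, by abel⟩

/-- a dense generating set of a finite group of exponent two generates in boundedly many steps -/
theorem mem_sums_of_dense {G : Type*} [AddCommGroup G] [Finite G] (h2 : ∀ x : G, x + x = 0) (T : Set G)
    (K : ℕ) (hT : Nat.card G ≤ K * T.ncard) (x : G) (hx : x ∈ AddSubgroup.closure T) :
    ∃ k ≤ 3 * K, x ∈ sums T k := by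
  classical
  have hneg : ∀ y : G, -y = y := fun y => neg_eq_of_add_eq_zero_left (h2 y)
  -- every element of the closure is in some `sums T k`
  have hex : ∃ k, x ∈ sums T k := by
    induction hx using AddSubgroup.closure_induction with
    | mem y hy => exact ⟨1, 0, rfl, y, hy, by rw [zero_add]⟩
    | zero => exact ⟨0, rfl⟩
    | add a b _ _ ha hb =>
      obtain ⟨k, hk⟩ := ha
      obtain ⟨l, hl⟩ := hb
      exact ⟨k + l, sums_add T k l a b hk hl⟩
    | neg a _ ha => rw [hneg]; exact ha
  have hspec := Nat.find_spec hex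
  have hmin : ∀ k < Nat.find hex, x ∉ sums T k := fun k hk => Nat.find_min hex hk
  set ℓ := Nat.find hex with hℓ
  refine ⟨ℓ, ?_, hspec⟩
  by_contra hcon
  push Not at hcon
  -- the path
  have hpath : ∀ k ≤ ℓ, ∃ y ∈ sums T k, x + y ∈ sums T (ℓ - k) := by
    intro k hk
    have key : ∀ (l : ℕ) (k : ℕ) (z : G), z ∈ sums T (k + l) → ∃ y ∈ sums T k, z + y ∈ sums T l := by
      intro l
      induction l with
      | zero => intro k z hz; exact ⟨z, hz, by rw [h2]; rfl⟩
      | succ l ih =>
        intro k z hz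
        have hz' : z ∈ sums T ((k + l) + 1) := by rw [add_assoc]; exact hz
        obtain ⟨w, hw, t, ht, rfl⟩ := hz'
        obtain ⟨y, hy, hwy⟩ := ih k w hw
        exact ⟨y, hy, w + y, hwy, t, ht, by abel⟩
    apply key (ℓ - k) k x
    rw [Nat.add_sub_cancel' hk]
    exact hspec
  choose! y hy hxy using hpath
  -- the translates
  have hdisj : ∀ i j : ℕ, i < j → 3 * j ≤ ℓ → ∀ t ∈ T, ∀ t' ∈ T, y (3 * i) + t ≠ y (3 * j) + t' := by
    intro i j hij hj t ht t' ht' heq
    have h1 := hy (3 * i) (by omega)
    have h2' := hxy (3 * j) hj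
    -- x = (x + y_{3j}) + y_{3j}, y_{3j} = y_{3i} + t + t'
    have e : x = (x + y (3 * j)) + y (3 * i) + t + t' := by
      have e1 : y (3 * j) = y (3 * i) + t + t' := by
        rw [heq, add_assoc, h2, add_zero]
      calc x = x + 0 := by rw [add_zero]
        _ = x + (y (3 * j) + y (3 * j)) := by rw [h2]
        _ = (x + y (3 * j)) + y (3 * j) := by abel
        _ = (x + y (3 * j)) + (y (3 * i) + t + t') := by rw [← e1]
        _ = _ := by abel
    have h3 : (x + y (3 * j)) + y (3 * i) ∈ sums T ((ℓ - 3 * j) + 3 * i) := sums_add T _ _ _ _ h2' h1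
    have h4 : x ∈ sums T ((ℓ - 3 * j) + 3 * i + 1 + 1) :=
      ⟨_, ⟨_, h3, t, ht, rfl⟩, t', ht', e⟩
    exact hmin _ (by omega) h4
  have hcard : (K + 1) * T.ncard ≤ Nat.card G := by
    let F : Fin (K + 1) × T → G := fun p => y (3 * (p.1 : ℕ)) + p.2
    have hF : Function.Injective F := by
      rintro ⟨i, t⟩ ⟨j, t'⟩ h
      simp only [F] at h
      rcases lt_trichotomy i j with hij | hij | hij
      · exact absurd h (hdisj i j hij (by have := j.2; omega) t t.2 t' t'.2)
      · subst hij
        have : (t : G) = t' := add_left_cancel h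
        rw [Subtype.ext this]
      · exact absurd h.symm (hdisj j i hij (by have := i.2; omega) t' t'.2 t t.2)
    have := Nat.card_le_card_of_injective F hF
    rw [Nat.card_prod, Nat.card_fin] at this
    exact this
  have hTpos : 0 < T.ncard := by
    rcases Nat.eq_zero_or_pos T.ncard with h0 | h0
    · rw [h0, mul_zero] at hT
      have : 0 < Nat.card G := Nat.card_pos
      omega
    · exact h0
  nlinarith

section domW

variable {U : Type*} [AddCommGroup U] [Finite U]

theorem sim_trans {f g h : AddMonoid.End U} (h2 : ∀ x : U, x + x = 0) {a b : ℕ} (h1 : rg (f + g) ≤ a)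
    (h3 : rg (g + h) ≤ b) : rg (f + h) ≤ a * b := by
  have e : f + h = (f + g) + (g + h) := by
    have := end_add_self h2 g
    calc f + h = f + (g + g) + h := by rw [this, add_zero]
      _ = _ := by abel
  rw [e]
  exact (rg_add _ _).trans (Nat.mul_le_mul h1 h3)

theorem dom_W {C : ℕ} (hC : 1 ≤ C) (h2 : ∀ x : U, x + x = 0) (W : AddSubgroup U) (hW : W.index ≤ C)
    (L : U → AddMonoid.End U) (hadd : ∀ u v, rg (L (u + v) + L u + L v) ≤ C) (u : U)
    (hdom : ∃ D : AddSubgroup U, D.index ≤ C ∧ ∀ v ∈ D, ∃ x, rg (L u * L v + L x) ≤ C) :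
    ∃ D : AddSubgroup U, D ≤ W ∧ D.index ≤ C * C * C ∧
      ∀ v ∈ D, ∃ x ∈ W, rg (L u * L v + L x) ≤ (C ^ 4 * C ^ 2) ^ (3 * C) * C ^ 2 := by
  classical
  obtain ⟨D, hD, hDx⟩ := hdom
  -- restrict to `E = D ⊓ W`
  set E : AddSubgroup U := D ⊓ W with hE
  have hEi : E.index ≤ C * C := AddSubgroup.index_inf_le.trans (Nat.mul_le_mul hD hW)
  have hx0 : ∀ v : E, ∃ x, rg (L u * L v + L x) ≤ C := fun v => hDx v v.2.1
  choose x hx using hx0
  -- the popular class
  have hWi0 : W.index ≠ 0 := AddSubgroup.index_ne_zero_of_finite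
  haveI : Finite (U ⧸ W) := AddSubgroup.index_ne_zero_iff_finite.1 hWi0
  haveI : Fintype (U ⧸ W) := Fintype.ofFinite _
  haveI : Fintype E := Fintype.ofFinite _
  have hpop : ∃ c : U ⧸ W, Fintype.card E ≤
      C * (Finset.univ.filter (fun v : E => (QuotientAddGroup.mk (x v) : U ⧸ W) = c)).card := by
    by_contra hcon
    push Not at hcon
    have h1 : Fintype.card E = ∑ c : U ⧸ W,
        (Finset.univ.filter (fun v : E => (QuotientAddGroup.mk (x v) : U ⧸ W) = c)).card := by
      rw [← Finset.card_univ]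
      exact Finset.card_eq_sum_card_fiberwise (fun v _ => Finset.mem_univ _)
    have hpos : 0 < Fintype.card E := Fintype.card_pos_iff.2 ⟨0⟩
    have h3 : Fintype.card (U ⧸ W) ≤ C := by
      rw [← Nat.card_eq_fintype_card]; exact hW
    have h4 : C * Fintype.card E = ∑ c : U ⧸ W,
        C * (Finset.univ.filter (fun v : E => (QuotientAddGroup.mk (x v) : U ⧸ W) = c)).card := by
      rw [h1, Finset.mul_sum]
    have h5 : ∑ c : U ⧸ W,
        C * (Finset.univ.filter (fun v : E => (QuotientAddGroup.mk (x v) : U ⧸ W) = c)).card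
        < ∑ c : U ⧸ W, Fintype.card E := by
      apply Finset.sum_lt_sum_of_nonempty ⟨0, Finset.mem_univ _⟩
      intro c _
      exact hcon c
    rw [Finset.sum_const, Finset.card_univ, smul_eq_mul, ← h4] at h5
    have h6 : Fintype.card (U ⧸ W) * Fintype.card E ≤ C * Fintype.card E := Nat.mul_le_mul_right _ h3
    omega
  obtain ⟨c, hc⟩ := hpop
  -- an element of the class
  set P : Finset E := Finset.univ.filter (fun v : E => (QuotientAddGroup.mk (x v) : U ⧸ W) = c) with hP
  have hPne : P.Nonempty := by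
    rw [← Finset.card_pos]
    have hpos : 0 < Fintype.card E := Fintype.card_pos_iff.2 ⟨0⟩
    rcases Nat.eq_zero_or_pos P.card with h0 | h0
    · rw [h0, mul_zero] at hc
      omega
    · exact h0
  obtain ⟨v0, hv0⟩ := hPne
  -- the generating set
  let T : Set E := {t | ∃ v ∈ P, t = v + v0}
  have hTcard : Nat.card E ≤ C * T.ncard := by
    have h1 : T = ((P.image (fun v => v + v0) : Finset E) : Set E) := by
      ext t
      simp only [T, Set.mem_setOf_eq, Finset.coe_image, Set.mem_image, Finset.mem_coe]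
      constructor
      · rintro ⟨v, hv, rfl⟩; exact ⟨v, hv, rfl⟩
      · rintro ⟨v, hv, rfl⟩; exact ⟨v, hv, rfl⟩
    rw [h1, Set.ncard_coe_finset, Finset.card_image_of_injective _ (add_left_injective v0),
      Nat.card_eq_fintype_card]
    exact hc
  have hE2 : ∀ t : E, t + t = 0 := fun t => Subtype.ext (h2 t)
  -- words of `T` have products in `W`
  have hT1 : ∀ t ∈ T, ∃ w ∈ W, rg (L u * L t + L w) ≤ C ^ 4 := by
    rintro t ⟨v, hv, rfl⟩
    refine ⟨x v + x v0, ?_, ?_⟩
    · have e1 : (QuotientAddGroup.mk (x v) : U ⧸ W) = QuotientAddGroup.mk (x v0) :=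
        (Finset.mem_filter.1 hv).2.trans (Finset.mem_filter.1 hv0).2.symm
      rw [QuotientAddGroup.eq] at e1
      have : -x v = x v := neg_eq_of_add_eq_zero_left (h2 _)
      rwa [this] at e1
    · have e : L u * L ((v + v0 : E) : U) + L (x v + x v0) =
          L u * (L ((v : U) + v0) + L v + L v0) + ((L u * L v + L (x v)) + (L u * L v0 + L (x v0))) +
            (L (x v + x v0) + L (x v) + L (x v0)) := by
        have e1 := end_add_self h2 (L u * L v)
        have e2 := end_add_self h2 (L u * L v0)
        have e3 := end_add_self h2 (L (x v))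
        have e4 := end_add_self h2 (L (x v0))
        have e5 : ((v + v0 : E) : U) = (v : U) + v0 := rfl
        rw [e5, mul_add, mul_add]
        calc L u * L ((v : U) + v0) + L (x v + x v0)
            = L u * L ((v : U) + v0) + L (x v + x v0) + (L u * L v + L u * L v) + (L u * L v0 + L u * L v0)
              + (L (x v) + L (x v)) + (L (x v0) + L (x v0)) := by rw [e1, e2, e3, e4]; abel
          _ = _ := by abel
      rw [e]
      have f1 := (rg_mul_right (L u) (L ((v : U) + v0) + L v + L v0)).trans (hadd v v0)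
      have f2 := (rg_add (L u * L v + L (x v)) (L u * L v0 + L (x v0))).trans
        (Nat.mul_le_mul (hx v) (hx v0))
      have f3 := hadd (x v) (x v0)
      refine (rg_add _ _).trans ((Nat.mul_le_mul ((rg_add _ _).trans (Nat.mul_le_mul f1 f2)) f3).trans ?_)
      apply le_of_eq
      ring
  have hword : ∀ k, ∀ t ∈ sums T k, ∃ w ∈ W, rg (L u * L t + L w) ≤ (C ^ 4 * C ^ 2) ^ k * C ^ 2 := by
    intro k
    induction k with
    | zero =>
      intro t ht
      have ht0 : t = 0 := ht
      refine ⟨0, W.zero_mem, ?_⟩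
      rw [ht0]
      have h0 : rg (L 0) ≤ C := by
        have := hadd 0 0
        rw [add_zero, end_add_self h2, zero_add] at this
        exact this
      have : ((0 : E) : U) = 0 := rfl
      rw [this]
      refine (rg_add _ _).trans ((Nat.mul_le_mul ((rg_mul_right _ _).trans h0) h0).trans ?_)
      apply le_of_eq
      ring
    | succ k ih =>
      rintro t ⟨y, hy, t', ht', rfl⟩
      obtain ⟨w, hw, hw2⟩ := ih y hy
      obtain ⟨w', hw', hw2'⟩ := hT1 t' ht'
      refine ⟨w + w', W.add_mem hw hw', ?_⟩
      have e : L u * L ((y + t' : E) : U) + L (w + w') =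
          L u * (L ((y : U) + t') + L y + L t') + ((L u * L y + L w) + (L u * L t' + L w')) +
            (L (w + w') + L w + L w') := by
        have e1 := end_add_self h2 (L u * L y)
        have e2 := end_add_self h2 (L u * L t')
        have e3 := end_add_self h2 (L w)
        have e4 := end_add_self h2 (L w')
        have e5 : ((y + t' : E) : U) = (y : U) + t' := rfl
        rw [e5, mul_add, mul_add]
        calc L u * L ((y : U) + t') + L (w + w')
            = L u * L ((y : U) + t') + L (w + w') + (L u * L y + L u * L y) + (L u * L t' + L u * L t')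
              + (L w + L w) + (L w' + L w') := by rw [e1, e2, e3, e4]; abel
          _ = _ := by abel
      rw [e]
      have f1 := (rg_mul_right (L u) (L ((y : U) + t') + L y + L t')).trans (hadd y t')
      have f2 := (rg_add (L u * L y + L w) (L u * L t' + L w')).trans
        (Nat.mul_le_mul hw2 hw2')
      have f3 := hadd w w'
      refine (rg_add _ _).trans ((Nat.mul_le_mul ((rg_add _ _).trans (Nat.mul_le_mul f1 f2)) f3).trans ?_)
      apply le_of_eq
      ring
  -- the subgroup
  refine ⟨(AddSubgroup.closure T).map E.subtype, ?_, ?_, ?_⟩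
  · rintro _ ⟨t, -, rfl⟩
    exact t.2.2
  · rw [AddSubgroup.index_map_subtype]
    have h1 : (AddSubgroup.closure T).index ≤ C := by
      have h3 := AddSubgroup.card_mul_index (AddSubgroup.closure T)
      have h4 : T.ncard ≤ Nat.card (AddSubgroup.closure T) := by
        rw [← Nat.card_coe_set_eq]
        exact Nat.card_mono (Set.toFinite _) AddSubgroup.subset_closure
      have h5 : 0 < Nat.card (AddSubgroup.closure T) := Nat.card_pos
      have h6 : Nat.card (AddSubgroup.closure T) * (AddSubgroup.closure T).index ≤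
          Nat.card (AddSubgroup.closure T) * C := by
        rw [h3, mul_comm _ C]
        exact hTcard.trans (Nat.mul_le_mul_left _ h4)
      exact Nat.le_of_mul_le_mul_left h6 h5
    calc (AddSubgroup.closure T).index * E.index ≤ C * (C * C) := Nat.mul_le_mul h1 hEi
      _ = C * C * C := by ring
  · rintro _ ⟨t, ht, rfl⟩
    obtain ⟨k, hk, hk2⟩ := mem_sums_of_dense hE2 T C hTcard t ht
    obtain ⟨w, hw, hw2⟩ := hword k t hk2
    refine ⟨w, hw, hw2.trans ?_⟩
    apply Nat.mul_le_mul_right
    apply Nat.pow_le_pow_right _ hk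
    positivity

/-- the constant of `hyp_W` -/
def CW (C : ℕ) : ℕ := (C ^ 4 * C ^ 2) ^ (3 * C) * C ^ 2 + C * C * C + C

theorem hyp_W {C : ℕ} (hC : 1 ≤ C) (h2 : ∀ x : U, x + x = 0) (W : AddSubgroup U) (hW : W.index ≤ C)
    (L : U → AddMonoid.End U) (hadd : ∀ u v, rg (L (u + v) + L u + L v) ≤ C)
    (hdom : ∀ u ∈ W, ∃ D : AddSubgroup U, D.index ≤ C ∧ ∀ v ∈ D, ∃ x, rg (L u * L v + L x) ≤ C)
    (hcomm : ∀ u ∈ W, ∀ v ∈ W, rg (L u * L v + L v * L u) ≤ C) :
    Hyp (fun w : W => L w) (CW C) where
  two := h2
  add := fun u u' => (hadd u u').trans (Nat.le_add_left _ _)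
  dom := by
    intro y
    obtain ⟨D, hDW, hD, hDx⟩ := dom_W hC h2 W hW L hadd y (hdom y y.2)
    refine ⟨D.addSubgroupOf W, ?_, ?_⟩
    · have h1 : D.relIndex W ∣ D.index := AddSubgroup.relIndex_dvd_index_of_normal D W
      have h3 := Nat.le_of_dvd (Nat.pos_of_ne_zero AddSubgroup.index_ne_zero_of_finite) h1
      have h4 : (D.addSubgroupOf W).index ≤ C * C * C := h3.trans hD
      unfold CW
      omega
    · intro v hv
      obtain ⟨x, hx, hx2⟩ := hDx v hv
      refine ⟨⟨x, hx⟩, hx2.trans ?_⟩
      unfold CW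
      omega
  comm := fun y v => (hcomm y y.2 v v.2).trans (Nat.le_add_left _ _)

end domW

end Pool.Agent.helper3.MF9
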